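import Pool.Agent.Helper18.FT.Main

/-!
# MP_766b49_co: degenerate graphs with few triangles, constant 27/4

Harris asked whether triangle-free `d`-degenerate graphs have fractional chromatic number
`O(d / log d)`. We prove: if every nonempty set `S` of vertices contains a vertex with at most `d`
neighbours in `S`, spanning at most `d ^ 2 / f` edges, then the fractional chromatic number is at
most `(27 / 4 + o(1)) d / log f`. For `f = d ^ 2 + 1` (no triangles) this is `(27 / 8 + o(1)) d / log d`
(theorem `triangle_free_corollary`).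

Proof. (1) Triangle-free graphs. The vertices are treated in a degeneracy order. The conditional
probability with which `u` is chosen is `x_u = p M_u h_u`, if no earlier neighbour of `u` is chosen;
`M_u` is the product of all `1 / (1 - x_v)` over the earlier neighbours `v` of `u` (and `0` if some `v`
is chosen), and `h_u = 1 + β |N_u| - β ∑ M_v` (sum over the earlier neighbours `v`), stopped when it is
near `0`; `x_u` is set to `0` if the value exceeds `κ`. Both factors are martingales and, as there are
no triangles, so is the product; and `E (M_w x_u) ≤ p` for the earlier neighbours `u` of `w`. If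
`p M_w h_w > κ` then the sum of the `x_v` is large, hence the sum of the `M_v` is large and `h_w` is
small. (2) Few triangles. Keep every vertex with the probability `p = √(η f) / d` and delete the
vertices whose earlier neighbourhood contains an edge of the sample or more than `(1 + η) p d`
elements of the sample; the rest is triangle-free and `(1 + η) p d`-degenerate, and every vertex
survives with probability at least `(1 - 2 η) p`.
-/

set_option autoImplicit false

namespace Pool.Agent.Helper18.FT.FewTriangles27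

open scoped Classical

/-- For every `ε > 0` there is `K` such that for all `d ≥ 1` and `1 < f ≤ d ^ 2 + 1`: if in the finite
graph `G` every nonempty vertex set `S` contains a vertex `v` with at most `d` neighbours in `S`, and
these neighbours span at most `d ^ 2 / f` edges, then `G` has a fractional colouring of total weight at
most `(27 / 4 + ε + K / log f) * d / log f`. -/
theorem result (ε : ℝ) (hε : 0 < ε) : ∃ K : ℝ, 0 < K ∧ ∀ (d : ℕ) (f : ℝ), 1 ≤ d → 1 < f →
    f ≤ (d : ℝ) ^ 2 + 1 → ∀ (V : Type) [Fintype V] (G : SimpleGraph V),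
    (∀ S : Finset V, S.Nonempty → ∃ v ∈ S, (S.filter (fun u => G.Adj v u)).card ≤ d ∧
      ((G.edgeFinset.filter (fun e => ∀ x ∈ e, x ∈ S ∧ G.Adj v x)).card : ℝ)
        ≤ (d : ℝ) ^ 2 / f) →
    ∃ w : Finset V → ℝ, (∀ I, 0 ≤ w I) ∧
      (∀ I, w I ≠ 0 → G.IsIndepSet (I : Set V)) ∧
      (∀ v : V, 1 ≤ ∑ I ∈ Finset.univ.filter (fun I : Finset V => v ∈ I), w I) ∧
      ∑ I, w I ≤ (27 / 4 + ε + K / Real.log f) * d / Real.log f :=
  Pool.Agent.Helper18.FT.few_triangles ε hε

/-- The hypothesis holds for triangle-free `d`-degenerate graphs with `f = d ^ 2 + 1`. -/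
theorem triangle_free_case (d : ℕ) (V : Type) [Fintype V] (G : SimpleGraph V)
    (hG : G.CliqueFree 3)
    (hd : ∀ S : Finset V, S.Nonempty → ∃ v ∈ S, (S.filter (fun u => G.Adj v u)).card ≤ d) :
    ∀ S : Finset V, S.Nonempty → ∃ v ∈ S, (S.filter (fun u => G.Adj v u)).card ≤ d ∧
      ((G.edgeFinset.filter (fun e => ∀ x ∈ e, x ∈ S ∧ G.Adj v x)).card : ℝ)
        ≤ (d : ℝ) ^ 2 / ((d : ℝ) ^ 2 + 1) := by
  intro S hS
  obtain ⟨v, hv, hvd⟩ := hd S hS
  refine ⟨v, hv, hvd, ?_⟩
  have h0 : (G.edgeFinset.filter (fun e => ∀ x ∈ e, x ∈ S ∧ G.Adj v x)) = ∅ := by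
    refine Finset.filter_false_of_mem fun e he hx => ?_
    induction e using Sym2.ind with
    | _ a b =>
      rw [SimpleGraph.mem_edgeFinset, SimpleGraph.mem_edgeSet] at he
      have ha := (hx a (Sym2.mem_mk_left a b)).2
      have hb := (hx b (Sym2.mem_mk_right a b)).2
      exact hG {v, a, b} (SimpleGraph.is3Clique_triple_iff.2 ⟨ha, hb, he⟩)
  rw [h0, Finset.card_empty, Nat.cast_zero]
  positivity

/-- Triangle-free `d`-degenerate graphs have fractional chromatic number at most
`(27 / 8 + o(1)) * d / log d`. -/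
theorem triangle_free_corollary (ε : ℝ) (hε : 0 < ε) : ∃ d₀ : ℕ, ∀ d : ℕ, d₀ ≤ d →
    ∀ (V : Type) [Fintype V] (G : SimpleGraph V), G.CliqueFree 3 →
      (∀ S : Finset V, S.Nonempty → ∃ v ∈ S, (S.filter (fun u => G.Adj v u)).card ≤ d) →
      ∃ w : Finset V → ℝ, (∀ I, 0 ≤ w I) ∧
        (∀ I, w I ≠ 0 → G.IsIndepSet (I : Set V)) ∧
        (∀ v : V, 1 ≤ ∑ I ∈ Finset.univ.filter (fun I : Finset V => v ∈ I), w I) ∧
        ∑ I, w I ≤ (27 / 8 + ε) * d / Real.log d := by
  obtain ⟨K, hK, h⟩ := result ε hε
  obtain ⟨d₀, hd₀⟩ := exists_nat_gt (Real.exp (K / ε))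
  refine ⟨max d₀ 3, fun d hd V _ G hG hdeg => ?_⟩
  have hd3 : (3 : ℝ) ≤ d := by exact_mod_cast (le_max_right _ _).trans hd
  have hdd : (d₀ : ℝ) ≤ d := by exact_mod_cast (le_max_left _ _).trans hd
  have hd1 : 1 ≤ d := by
    have := (le_max_right d₀ 3).trans hd
    omega
  have hsq : (1 : ℝ) < (d : ℝ) ^ 2 + 1 := by nlinarith
  obtain ⟨w, h1, h2, h3, h4⟩ := h d ((d : ℝ) ^ 2 + 1) hd1 hsq le_rfl V G
    (triangle_free_case d V G hG hdeg)
  refine ⟨w, h1, h2, h3, h4.trans ?_⟩
  have hdpos : (0 : ℝ) < d := by linarith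
  have hlogd : 0 < Real.log d := Real.log_pos (by linarith)
  have hlog : 2 * Real.log d ≤ Real.log ((d : ℝ) ^ 2 + 1) := by
    have e : 2 * Real.log d = Real.log ((d : ℝ) ^ 2) := by
      rw [Real.log_pow]
      norm_num
    rw [e]
    exact Real.log_le_log (by positivity) (by linarith)
  have hlog0 : 0 < Real.log ((d : ℝ) ^ 2 + 1) := by linarith
  have hKε : K / Real.log ((d : ℝ) ^ 2 + 1) ≤ ε := by
    have h5 : K / ε ≤ Real.log d := by
      rw [Real.le_log_iff_exp_le hdpos]
      linarith
    rw [div_le_iff₀ hε] at h5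
    rw [div_le_iff₀ hlog0]
    nlinarith
  calc (27 / 4 + ε + K / Real.log ((d : ℝ) ^ 2 + 1)) * d / Real.log ((d : ℝ) ^ 2 + 1)
      ≤ (27 / 4 + ε + ε) * d / (2 * Real.log d) := by
        refine div_le_div₀ (by positivity) ?_ (by positivity) hlog
        exact mul_le_mul_of_nonneg_right (by linarith) hdpos.le
    _ = (27 / 8 + ε) * d / Real.log d := by
        field_simp
        ring

end Pool.Agent.Helper18.FT.FewTriangles27
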