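import Pool.Agent.Helper18.FT.Samp
import Pool.Agent.Helper25.GT.Final
import Pool.Agent.Helper60.HC.Final

/-!
# Few triangles, by sampling
-/

set_option autoImplicit false

namespace Pool.Agent.Helper18.FT

open Finset
open scoped Classical

/-- The sampling argument for graphs: if triangle-free `D`-degenerate graphs have a fractional
colouring of weight at most `B`, then `G` has one of weight at most `B / c`. -/
theorem graph_part {V : Type} [Fintype V] (G : SimpleGraph V) (d : ℕ) (f : ℝ)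
    (hG : ∀ S : Finset V, S.Nonempty → ∃ v ∈ S, (S.filter (fun u => G.Adj v u)).card ≤ d ∧
      ((G.edgeFinset.filter (fun e => ∀ x ∈ e, x ∈ S ∧ G.Adj v x)).card : ℝ)
        ≤ (d : ℝ) ^ 2 / f) (D : ℕ) (B p t : ℝ) (hp0 : 0 ≤ p) (hp1 : p ≤ 1) (ht : 0 < t)
    (hD : p * d + t ≤ D + 1) (c : ℝ) (hc : 0 < c)
    (hcp : c ≤ p - d * p ^ 2 / t ^ 2 - (d : ℝ) ^ 2 / f * p ^ 3)
    (hB : ∀ H : SimpleGraph V, H.CliqueFree 3 →
      (∀ S : Finset V, S.Nonempty → ∃ v ∈ S, (S.filter (fun u => H.Adj v u)).card ≤ D) →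
      ∃ w : Finset V → ℝ, (∀ I, 0 ≤ w I) ∧
        (∀ I, w I ≠ 0 → H.IsIndepSet (I : Set V)) ∧
        (∀ v : V, 1 ≤ ∑ I ∈ Finset.univ.filter (fun I : Finset V => v ∈ I), w I) ∧
        ∑ I, w I ≤ B) :
    ∃ w : Finset V → ℝ, (∀ I, 0 ≤ w I) ∧
      (∀ I, w I ≠ 0 → G.IsIndepSet (I : Set V)) ∧
      (∀ v : V, 1 ≤ ∑ I ∈ Finset.univ.filter (fun I : Finset V => v ∈ I), w I) ∧
      ∑ I, w I ≤ B / c := by
  obtain ⟨ord, hord1, hord2, hord3⟩ := Pool.Agent.Helper60.HC.exists_order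
    (fun v S => (S.filter (fun u => G.Adj v u)).card ≤ d ∧
      ((G.edgeFinset.filter (fun e => ∀ x ∈ e, x ∈ S ∧ G.Adj v x)).card : ℝ)
        ≤ (d : ℝ) ^ 2 / f) hG (Fintype.card V) univ Finset.card_univ
  have hinj : Function.Injective ord := by
    intro a b hab
    exact hord1 (Finset.mem_coe.2 (Finset.mem_univ a)) (Finset.mem_coe.2 (Finset.mem_univ b)) hab
  set N : V → Finset V := fun v => univ.filter (fun u => G.Adj v u ∧ ord u < ord v) with hN
  set F : V → Finset (Sym2 V) := fun v => G.edgeFinset.filter (fun e => ∀ x ∈ e, x ∈ N v) with hF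
  have hmemN : ∀ v u, u ∈ N v ↔ G.Adj v u ∧ ord u < ord v := by
    intro v u
    rw [hN]
    simp
  have hNcard : ∀ v, (N v).card ≤ d := by
    intro v
    refine le_trans (Finset.card_le_card fun u hu => ?_) (hord3 v (Finset.mem_univ v)).1
    rw [hmemN] at hu
    rw [Finset.mem_filter, Finset.mem_filter]
    exact ⟨⟨Finset.mem_univ u, hu.2.le⟩, hu.1⟩
  have hFcard : ∀ v, ((F v).card : ℝ) ≤ (d : ℝ) ^ 2 / f := by
    intro v
    refine le_trans ?_ (hord3 v (Finset.mem_univ v)).2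
    refine Nat.cast_le.2 (Finset.card_le_card fun e he => ?_)
    obtain ⟨he1, he2⟩ := Finset.mem_filter.1 he
    refine Finset.mem_filter.2 ⟨he1, fun x hx => ?_⟩
    have h := (hmemN v x).1 (he2 x hx)
    exact ⟨Finset.mem_filter.2 ⟨Finset.mem_univ x, h.2.le⟩, h.1⟩
  set T : Finset V → Finset V := fun S => univ.filter
    (fun v => v ∈ S ∧ (N v ∩ S).card ≤ D ∧ ∀ e ∈ F v, ∃ x ∈ e, x ∉ S) with hT
  have hmemT : ∀ S v, v ∈ T S ↔ v ∈ S ∧ (N v ∩ S).card ≤ D ∧ ∀ e ∈ F v, ∃ x ∈ e, x ∉ S := by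
    intro S v
    rw [hT]
    simp
  obtain ⟨H, hH⟩ : ∃ H : Finset V → SimpleGraph V,
      ∀ S a b, (H S).Adj a b ↔ G.Adj a b ∧ a ∈ T S ∧ b ∈ T S :=
    ⟨fun S => SimpleGraph.mk (fun a b => G.Adj a b ∧ a ∈ T S ∧ b ∈ T S)
      ⟨fun a b h => ⟨h.1.symm, h.2.2, h.2.1⟩⟩ ⟨fun a h => G.loopless.irrefl a h.1⟩,
      fun S a b => Iff.rfl⟩
  have htri : ∀ S a b c, G.Adj a b → G.Adj a c → G.Adj b c → a ∈ T S → b ∈ T S → c ∈ T S →
      ord b < ord a → ord c < ord a → False := by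
    intro S a b c hab hac hbc ha hb hc hba hca
    have he : s(b, c) ∈ F a := by
      refine Finset.mem_filter.2 ⟨?_, ?_⟩
      · rw [SimpleGraph.mem_edgeFinset, SimpleGraph.mem_edgeSet]
        exact hbc
      · intro x hx
        rw [Sym2.mem_iff] at hx
        rcases hx with rfl | rfl
        · exact (hmemN _ _).2 ⟨hab, hba⟩
        · exact (hmemN _ _).2 ⟨hac, hca⟩
    obtain ⟨x, hx, hxS⟩ := ((hmemT S a).1 ha).2.2 _ he
    rw [Sym2.mem_iff] at hx
    rcases hx with rfl | rfl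
    · exact hxS ((hmemT S _).1 hb).1
    · exact hxS ((hmemT S _).1 hc).1
  have hfree : ∀ S, (H S).CliqueFree 3 := by
    intro S s hs
    rw [SimpleGraph.is3Clique_iff] at hs
    obtain ⟨a, b, c, hab, hac, hbc, _⟩ := hs
    rw [hH] at hab hac hbc
    obtain ⟨hab, ha, hb⟩ := hab
    obtain ⟨hac, -, hc⟩ := hac
    obtain ⟨hbc, -, -⟩ := hbc
    have h1 : ord a ≠ ord b := fun h => hab.ne (hinj h)
    have h2 : ord a ≠ ord c := fun h => hac.ne (hinj h)
    have h3 : ord b ≠ ord c := fun h => hbc.ne (hinj h)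
    rcases lt_or_gt_of_ne h1 with h1 | h1
    · rcases lt_or_gt_of_ne h3 with h3 | h3
      · exact htri S c a b hac.symm hbc.symm hab hc ha hb (h1.trans h3) h3
      · exact htri S b a c hab.symm hbc hac hb ha hc h1 h3
    · rcases lt_or_gt_of_ne h2 with h2 | h2
      · exact htri S c a b hac.symm hbc.symm hab hc ha hb h2 (h1.trans h2)
      · exact htri S a b c hab hac hbc ha hb hc h1 h2
  have hdeg : ∀ S, ∀ S' : Finset V, S'.Nonempty →
      ∃ v ∈ S', (S'.filter (fun u => (H S).Adj v u)).card ≤ D := by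
    intro S S' hS'
    by_cases hne : (S' ∩ T S).Nonempty
    · obtain ⟨v, hv, hmax⟩ := Finset.exists_max_image (S' ∩ T S) ord hne
      rw [Finset.mem_inter] at hv
      refine ⟨v, hv.1, le_trans (Finset.card_le_card fun u hu => ?_)
        ((hmemT S v).1 hv.2).2.1⟩
      obtain ⟨hu1, hu2⟩ := Finset.mem_filter.1 hu
      rw [hH] at hu2
      have h1 := hmax u (Finset.mem_inter.2 ⟨hu1, hu2.2.2⟩)
      have h2 : ord u ≠ ord v := fun h => hu2.1.ne (hinj h).symm
      refine Finset.mem_inter.2 ⟨(hmemN v u).2 ⟨hu2.1, lt_of_le_of_ne h1 h2⟩, ?_⟩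
      exact ((hmemT S u).1 hu2.2.2).1
    · obtain ⟨v, hv⟩ := hS'
      refine ⟨v, hv, ?_⟩
      rw [Finset.filter_false_of_mem, Finset.card_empty]
      · exact Nat.zero_le D
      · intro u _ hu
        exact hne ⟨v, Finset.mem_inter.2 ⟨hv, ((hH S v u).1 hu).2.1⟩⟩
  choose w hw1 hw2 hw3 hw4 using fun S => hB (H S) (hfree S) (hdeg S)
  refine combine G T (pr p) (pr_nonneg hp0 hp1) (pr_sum p) B c hc w hw1 ?_
    (fun S v _ => hw3 S v) hw4 ?_
  · intro S I hI a ha b hb haT hbT hadj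
    exact hw2 S I hI (Finset.mem_coe.2 ha) (Finset.mem_coe.2 hb) hadj.ne
      ((hH S a b).2 ⟨hadj, haT, hbT⟩)
  · intro v
    have hNd : ((N v).card : ℝ) ≤ d := by exact_mod_cast hNcard v
    have h1 := survive p t D v (N v) (fun h => ((hmemN v v).1 h).1.ne rfl) hp0 hp1 ht
      (le_trans (by nlinarith) hD) (F v) (by
        intro e he
        obtain ⟨he1, he2⟩ := Finset.mem_filter.1 he
        refine ⟨fun h => ?_, he2⟩
        rw [SimpleGraph.mem_edgeFinset] at he1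
        exact G.not_isDiag_of_mem_edgeSet he1 h)
    have h2 : p - d * p ^ 2 / t ^ 2 - (d : ℝ) ^ 2 / f * p ^ 3 ≤
        p - (N v).card * p ^ 2 / t ^ 2 - (F v).card * p ^ 3 := by
      have h3 : (N v).card * p ^ 2 / t ^ 2 ≤ d * p ^ 2 / t ^ 2 :=
        div_le_div_of_nonneg_right (mul_le_mul_of_nonneg_right hNd (by positivity))
          (by positivity)
      have h4 : (F v).card * p ^ 3 ≤ (d : ℝ) ^ 2 / f * p ^ 3 :=
        mul_le_mul_of_nonneg_right (hFcard v) (by positivity)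
      linarith
    refine (hcp.trans (h2.trans h1)).trans (le_of_eq ?_)
    exact Finset.sum_congr rfl fun S _ => if_congr (hmemT S v).symm rfl rfl

theorem large (ε : ℝ) (hε : 0 < ε) : ∃ f₀ : ℝ, 1 < f₀ ∧ ∀ (d : ℕ) (f : ℝ), 1 ≤ d → f₀ ≤ f →
    f ≤ (d : ℝ) ^ 2 + 1 → ∀ (V : Type) [Fintype V] (G : SimpleGraph V),
    (∀ S : Finset V, S.Nonempty → ∃ v ∈ S, (S.filter (fun u => G.Adj v u)).card ≤ d ∧
      ((G.edgeFinset.filter (fun e => ∀ x ∈ e, x ∈ S ∧ G.Adj v x)).card : ℝ)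
        ≤ (d : ℝ) ^ 2 / f) →
    ∃ w : Finset V → ℝ, (∀ I, 0 ≤ w I) ∧
      (∀ I, w I ≠ 0 → G.IsIndepSet (I : Set V)) ∧
      (∀ v : V, 1 ≤ ∑ I ∈ Finset.univ.filter (fun I : Finset V => v ∈ I), w I) ∧
      ∑ I, w I ≤ (27 / 4 + ε) * d / Real.log f := by
  set η : ℝ := min (1 / 16) (ε / 60) with hηdef
  have hη : 0 < η := lt_min (by norm_num) (by linarith)
  have hη1 : η ≤ 1 / 16 := min_le_left _ _
  have hη2 : η ≤ ε / 60 := min_le_right _ _
  obtain ⟨D₀, hD₀⟩ := Pool.Agent.Helper25.GT.triangle_free η hη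
  -- the size of `m`
  obtain ⟨M, hM⟩ : ∃ M : ℝ, M = max (max (D₀ : ℝ) 3) (1 / η ^ 3) := ⟨_, rfl⟩
  have hM1 : (D₀ : ℝ) ≤ M := by rw [hM]; exact (le_max_left _ _).trans (le_max_left _ _)
  have hM2 : 3 ≤ M := by rw [hM]; exact (le_max_right _ _).trans (le_max_left _ _)
  have hM3 : 1 / η ^ 3 ≤ M := by rw [hM]; exact le_max_right _ _
  refine ⟨max (max 2 (M ^ 2 / η)) (Real.exp (-Real.log η / η)),
    lt_of_lt_of_le one_lt_two ((le_max_left _ _).trans (le_max_left _ _)), ?_⟩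
  intro d f hd hf hfd V _ G hG
  have hf2 : 2 ≤ f := ((le_max_left _ _).trans (le_max_left _ _)).trans hf
  have hfM : M ^ 2 / η ≤ f := ((le_max_right _ _).trans (le_max_left _ _)).trans hf
  have hfe : Real.exp (-Real.log η / η) ≤ f := (le_max_right _ _).trans hf
  have hf0 : 0 < f := by linarith
  have hd0 : (1 : ℝ) ≤ d := by exact_mod_cast hd
  have hdpos : (0 : ℝ) < d := by linarith
  set m : ℝ := Real.sqrt (η * f) with hmdef
  have hηf : 0 < η * f := mul_pos hη hf0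
  have hm2 : m ^ 2 = η * f := Real.sq_sqrt hηf.le
  have hmM : M ≤ m := by
    refine Real.le_sqrt_of_sq_le ?_
    rw [div_le_iff₀ hη] at hfM
    linarith
  have hm0 : 0 < m := by linarith
  have hmd : m ≤ d := by
    refine le_of_sq_le_sq ?_ hdpos.le
    rw [hm2]
    nlinarith
  have hlogf : 0 < Real.log f := Real.log_pos (by linarith)
  have hlogm : (1 - η) * Real.log f ≤ 2 * Real.log m := by
    have h1 : 2 * Real.log m = Real.log η + Real.log f := by
      rw [← Real.log_mul hη.ne' hf0.ne', ← hm2, Real.log_pow]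
      norm_num
    have h2 : -Real.log η / η ≤ Real.log f := by
      rw [Real.le_log_iff_exp_le hf0]
      exact hfe
    rw [div_le_iff₀ hη] at h2
    linarith
  have hlogm0 : 0 < Real.log m := Real.log_pos (by linarith)
  set D : ℕ := ⌈(1 + η) * m⌉₊ with hD
  have hDm : (1 + η) * m ≤ D := Nat.le_ceil _
  have hDm2 : (D : ℝ) ≤ (1 + η) * m + 1 := (Nat.ceil_lt_add_one (by positivity)).le
  have hη3 : 1 ≤ η ^ 3 * m := by
    have := hM3.trans hmM
    rwa [div_le_iff₀ (by positivity), mul_comm] at this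
  have hηm : 1 ≤ η * m := by
    have : η ^ 3 * m ≤ η * m := by
      refine mul_le_mul_of_nonneg_right ?_ hm0.le
      nlinarith [sq_nonneg η, mul_pos hη hη]
    linarith
  have hDm3 : (D : ℝ) ≤ (1 + 2 * η) * m := by nlinarith
  have hDm4 : m ≤ D := le_trans (by nlinarith) hDm
  have hDD : D₀ ≤ D := by
    have : (D₀ : ℝ) ≤ D := hM1.trans (hmM.trans hDm4)
    exact_mod_cast this
  have hlogD : Real.log m ≤ Real.log D := Real.log_le_log hm0 hDm4
  set p : ℝ := m / d with hp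
  have hpd : p * d = m := div_mul_cancel₀ _ hdpos.ne'
  have hp0 : 0 < p := div_pos hm0 hdpos
  have hp1 : p ≤ 1 := (div_le_one hdpos).2 hmd
  obtain ⟨w, h1, h2, h3, h4⟩ := graph_part G d f hG D ((27 / 8 + η) * D / Real.log D) p (η * m)
    hp0.le hp1 (by positivity) (by rw [hpd]; linarith) (p * (1 - 2 * η))
    (mul_pos hp0 (by linarith)) (by
      have e1 : (d : ℝ) * p ^ 2 / (η * m) ^ 2 = p * (1 / (η ^ 2 * m)) := by
        rw [sq p, ← mul_assoc, mul_comm (d : ℝ) p, hpd]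
        field_simp
      have e2 : (d : ℝ) ^ 2 / f * p ^ 3 = p * η := by
        have e3 : (d : ℝ) ^ 2 / f * p ^ 3 = p * ((p * d) ^ 2 / f) := by ring
        rw [e3, hpd, hm2, mul_div_assoc, div_self hf0.ne', mul_one]
      rw [e1, e2]
      have e4 : 1 / (η ^ 2 * m) ≤ η := by
        rw [div_le_iff₀ (by positivity)]
        linarith [hη3, (by ring : η * (η ^ 2 * m) = η ^ 3 * m)]
      have := mul_le_mul_of_nonneg_left e4 hp0.le
      linarith) (fun H hH hdeg => by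
        obtain ⟨w, h1, h2, h3, h4⟩ := hD₀ D hDD V H hH (fun S hS => by
          obtain ⟨v, hv, hc⟩ := hdeg S hS
          exact ⟨v, hv, hc⟩)
        exact ⟨w, h1, h2, h3, h4⟩)
  refine ⟨w, h1, h2, h3, h4.trans ?_⟩
  have hlogD0 : 0 < Real.log D := hlogm0.trans_le hlogD
  rw [div_div, div_le_div_iff₀ (mul_pos hlogD0 (mul_pos hp0 (by linarith))) hlogf]
  have e5 : (27 / 4 + ε) * d * (Real.log D * (p * (1 - 2 * η))) =
      (27 / 4 + ε) * (1 - 2 * η) * m * Real.log D := by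
    rw [← hpd]
    ring
  rw [e5]
  have h5 : (27 / 8 + η) * (1 + 2 * η) ≤ (27 / 4 + ε) * (1 - 2 * η) * ((1 - η) / 2) := by
    nlinarith [mul_pos hη hη, mul_pos hη hε]
  calc (27 / 8 + η) * D * Real.log f ≤ (27 / 8 + η) * ((1 + 2 * η) * m) * Real.log f := by
        refine mul_le_mul_of_nonneg_right (mul_le_mul_of_nonneg_left hDm3 (by linarith)) hlogf.le
    _ = (27 / 8 + η) * (1 + 2 * η) * (m * Real.log f) := by ring
    _ ≤ (27 / 4 + ε) * (1 - 2 * η) * ((1 - η) / 2) * (m * Real.log f) :=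
        mul_le_mul_of_nonneg_right h5 (by positivity)
    _ = (27 / 4 + ε) * (1 - 2 * η) * m * ((1 - η) * Real.log f / 2) := by ring
    _ ≤ (27 / 4 + ε) * (1 - 2 * η) * m * Real.log D := by
        refine mul_le_mul_of_nonneg_left (by linarith) ?_
        exact mul_nonneg (mul_nonneg (by linarith) (by linarith)) hm0.le

/-- Degenerate graphs with few triangles. -/
theorem few_triangles (ε : ℝ) (hε : 0 < ε) : ∃ K : ℝ, 0 < K ∧ ∀ (d : ℕ) (f : ℝ), 1 ≤ d → 1 < f →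
    f ≤ (d : ℝ) ^ 2 + 1 → ∀ (V : Type) [Fintype V] (G : SimpleGraph V),
    (∀ S : Finset V, S.Nonempty → ∃ v ∈ S, (S.filter (fun u => G.Adj v u)).card ≤ d ∧
      ((G.edgeFinset.filter (fun e => ∀ x ∈ e, x ∈ S ∧ G.Adj v x)).card : ℝ)
        ≤ (d : ℝ) ^ 2 / f) →
    ∃ w : Finset V → ℝ, (∀ I, 0 ≤ w I) ∧
      (∀ I, w I ≠ 0 → G.IsIndepSet (I : Set V)) ∧
      (∀ v : V, 1 ≤ ∑ I ∈ Finset.univ.filter (fun I : Finset V => v ∈ I), w I) ∧
      ∑ I, w I ≤ (27 / 4 + ε + K / Real.log f) * d / Real.log f := by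
  obtain ⟨f₀, hf₀, hl⟩ := large ε hε
  obtain ⟨K, hK, hs⟩ := Pool.Agent.Helper60.HC.few_triangles ε hε
  have hlog0 : 0 < Real.log f₀ := Real.log_pos hf₀
  refine ⟨K + 5 / 4 * Real.log f₀, by positivity, ?_⟩
  intro d f hd hf hfd V _ G hG
  have hlogf : 0 < Real.log f := Real.log_pos hf
  have hd0 : (0 : ℝ) ≤ d := Nat.cast_nonneg d
  rcases lt_or_ge f f₀ with h | h
  · obtain ⟨w, h1, h2, h3, h4⟩ := hs d f hd hf hfd V G hG
    refine ⟨w, h1, h2, h3, h4.trans ?_⟩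
    refine div_le_div_of_nonneg_right (mul_le_mul_of_nonneg_right ?_ hd0) hlogf.le
    have h5 : Real.log f ≤ Real.log f₀ := Real.log_le_log (by linarith) h.le
    have h6 : 5 / 4 ≤ (5 / 4 * Real.log f₀) / Real.log f := by
      rw [le_div_iff₀ hlogf]
      linarith
    rw [add_div]
    linarith
  · obtain ⟨w, h1, h2, h3, h4⟩ := hl d f hd h hfd V G hG
    refine ⟨w, h1, h2, h3, h4.trans ?_⟩
    refine div_le_div_of_nonneg_right (mul_le_mul_of_nonneg_right ?_ hd0) hlogf.le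
    have : 0 ≤ (K + 5 / 4 * Real.log f₀) / Real.log f := by positivity
    linarith

end Pool.Agent.Helper18.FT
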