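import Mathlib

/-!
# Random subsets of a finite set
-/

set_option autoImplicit false

namespace Pool.Agent.Helper18.FT

open Finset
open scoped Classical

/-- The probability of `S`. -/
noncomputable def pr {V : Type} [Fintype V] (p : ℝ) (S : Finset V) : ℝ :=
  p ^ S.card * (1 - p) ^ (univ \ S).card

theorem pr_nonneg {V : Type} [Fintype V] {p : ℝ} (h0 : 0 ≤ p) (h1 : p ≤ 1) (S : Finset V) :
    0 ≤ pr p S :=
  mul_nonneg (pow_nonneg h0 _) (pow_nonneg (by linarith) _)

theorem sum_sup {V : Type} [Fintype V] (p : ℝ) (A : Finset V) :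
    ∑ S : Finset V, (if A ⊆ S then pr p S else 0) = p ^ A.card := by
  have h := Finset.prod_add (fun _ : V => p) (fun i => if i ∈ A then 0 else 1 - p) univ
  have h1 : ∏ i : V, (p + if i ∈ A then 0 else 1 - p) = p ^ A.card := by
    have e : ∀ i : V, (p + if i ∈ A then 0 else 1 - p) = if i ∈ A then p else 1 := by
      intro i
      split_ifs <;> ring
    rw [Finset.prod_congr rfl fun i _ => e i, Finset.prod_ite_mem, Finset.univ_inter,
      Finset.prod_const]
  rw [← h1, h, Finset.powerset_univ]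
  refine Finset.sum_congr rfl fun S _ => ?_
  split_ifs with hA
  · rw [pr, Finset.prod_const]
    congr 1
    rw [← Finset.prod_const]
    refine Finset.prod_congr rfl fun i hi => ?_
    rw [if_neg]
    intro hiA
    exact (Finset.mem_sdiff.1 hi).2 (hA hiA)
  · obtain ⟨i, hiA, hiS⟩ := Finset.not_subset.1 hA
    have : ∏ i ∈ univ \ S, (if i ∈ A then 0 else 1 - p) = 0 :=
      Finset.prod_eq_zero (Finset.mem_sdiff.2 ⟨Finset.mem_univ i, hiS⟩) (by rw [if_pos hiA])
    rw [this, mul_zero]

/-- The second moment. -/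
theorem moment {V : Type} [Fintype V] (p : ℝ) (v : V) (N : Finset V) (hv : v ∉ N) :
    ∑ S : Finset V, pr p S * (if v ∈ S then (((N ∩ S).card : ℝ) - p * N.card) ^ 2 else 0) =
      N.card * (p ^ 2 - p ^ 3) := by
  have h1 : ∀ S : Finset V, (((N ∩ S).card : ℝ) - p * N.card) ^ 2 =
      ∑ a ∈ N, ∑ b ∈ N, ((if a ∈ S then (1 : ℝ) else 0) - p) * ((if b ∈ S then (1 : ℝ) else 0) - p) := by
    intro S
    have e : ((N ∩ S).card : ℝ) - p * N.card = ∑ a ∈ N, ((if a ∈ S then (1 : ℝ) else 0) - p) := by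
      rw [Finset.sum_sub_distrib, Finset.sum_const, nsmul_eq_mul, ← Finset.sum_filter,
        Finset.sum_const, nsmul_eq_mul, mul_one, Finset.filter_mem_eq_inter, mul_comm]
    rw [e, sq, Finset.sum_mul_sum]
  have h2 : ∀ a ∈ N, ∀ b ∈ N, ∑ S : Finset V, pr p S * (if v ∈ S then
      ((if a ∈ S then (1 : ℝ) else 0) - p) * ((if b ∈ S then (1 : ℝ) else 0) - p) else 0) =
      if a = b then p ^ 2 - p ^ 3 else 0 := by
    intro a ha b hb
    have hva : v ≠ a := fun h => hv (h ▸ ha)
    have hvb : v ≠ b := fun h => hv (h ▸ hb)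
    have e : ∀ S : Finset V, pr p S * (if v ∈ S then
      ((if a ∈ S then (1 : ℝ) else 0) - p) * ((if b ∈ S then (1 : ℝ) else 0) - p) else 0) =
        (if {v, a, b} ⊆ S then pr p S else 0) - p * (if {v, a} ⊆ S then pr p S else 0) -
        p * (if {v, b} ⊆ S then pr p S else 0) + p ^ 2 * (if {v} ⊆ S then pr p S else 0) := by
      intro S
      simp only [Finset.insert_subset_iff, Finset.singleton_subset_iff]
      by_cases h1 : v ∈ S <;> by_cases h2 : a ∈ S <;> by_cases h3 : b ∈ S <;>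
        simp only [h1, h2, h3, if_true, if_false, true_and, false_and, and_false, and_true,
          and_self] <;> ring
    rw [Finset.sum_congr rfl fun S _ => e S, Finset.sum_add_distrib, Finset.sum_sub_distrib,
      Finset.sum_sub_distrib, ← Finset.mul_sum, ← Finset.mul_sum, ← Finset.mul_sum, sum_sup,
      sum_sup, sum_sup, sum_sup, Finset.card_pair hva, Finset.card_pair hvb,
      Finset.card_singleton]
    split_ifs with hab
    · subst hab
      have : ({v, a, a} : Finset V) = {v, a} := by simp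
      rw [this, Finset.card_pair hva]
      ring
    · rw [Finset.card_eq_three.2 ⟨v, a, b, hva, hvb, hab, rfl⟩]
      ring
  calc ∑ S : Finset V, pr p S * (if v ∈ S then (((N ∩ S).card : ℝ) - p * N.card) ^ 2 else 0)
      = ∑ S : Finset V, ∑ a ∈ N, ∑ b ∈ N, pr p S * (if v ∈ S then
        ((if a ∈ S then (1 : ℝ) else 0) - p) * ((if b ∈ S then (1 : ℝ) else 0) - p) else 0) := by
        refine Finset.sum_congr rfl fun S _ => ?_
        rw [h1 S]
        split_ifs
        · rw [Finset.mul_sum]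
          exact Finset.sum_congr rfl fun a _ => Finset.mul_sum _ _ _
        · simp
    _ = ∑ a ∈ N, ∑ b ∈ N, ∑ S : Finset V, pr p S * (if v ∈ S then
        ((if a ∈ S then (1 : ℝ) else 0) - p) * ((if b ∈ S then (1 : ℝ) else 0) - p) else 0) := by
        rw [Finset.sum_comm]
        exact Finset.sum_congr rfl fun a _ => Finset.sum_comm
    _ = ∑ a ∈ N, ∑ b ∈ N, (if a = b then p ^ 2 - p ^ 3 else 0) :=
        Finset.sum_congr rfl fun a ha => Finset.sum_congr rfl fun b hb => h2 a ha b hb
    _ = N.card * (p ^ 2 - p ^ 3) := by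
        rw [← nsmul_eq_mul, ← Finset.sum_const]
        refine Finset.sum_congr rfl fun a ha => ?_
        rw [Finset.sum_ite_eq, if_pos ha]

/-- The probability that a vertex survives. `N` is the set of its earlier neighbours, `F` the set of
edges in `N`. -/
theorem survive {V : Type} [Fintype V] (p t : ℝ) (D : ℕ) (v : V) (N : Finset V)
    (hv : v ∉ N) (hp0 : 0 ≤ p) (hp1 : p ≤ 1) (ht : 0 < t) (hD : p * N.card + t ≤ D + 1)
    (F : Finset (Sym2 V)) (hF : ∀ e ∈ F, ¬ e.IsDiag ∧ ∀ x ∈ e, x ∈ N) :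
    p - N.card * p ^ 2 / t ^ 2 - F.card * p ^ 3 ≤ ∑ S : Finset V,
      (if v ∈ S ∧ (N ∩ S).card ≤ D ∧ ∀ e ∈ F, ∃ x ∈ e, x ∉ S then pr p S else 0) := by
  have h0 : ∑ S : Finset V, (if v ∈ S then pr p S else 0) = p := by
    have := sum_sup p ({v} : Finset V)
    rw [Finset.card_singleton, pow_one] at this
    refine Eq.trans (Finset.sum_congr rfl fun S _ => ?_) this
    exact if_congr Finset.singleton_subset_iff.symm rfl rfl
  have h1 := moment p v N hv
  have h2 : ∀ e ∈ F, ∑ S : Finset V, (if v ∈ S ∧ ∀ x ∈ e, x ∈ S then pr p S else 0) = p ^ 3 := by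
    intro e he
    obtain ⟨hd, hN⟩ := hF e he
    induction e using Sym2.ind with
    | _ a b =>
      have hab : a ≠ b := fun h => hd (Sym2.mk_isDiag_iff.2 h)
      have ha := hN a (Sym2.mem_mk_left a b)
      have hb := hN b (Sym2.mem_mk_right a b)
      have hva : v ≠ a := fun h => hv (h ▸ ha)
      have hvb : v ≠ b := fun h => hv (h ▸ hb)
      have := sum_sup p ({v, a, b} : Finset V)
      rw [Finset.card_eq_three.2 ⟨v, a, b, hva, hvb, hab, rfl⟩] at this
      rw [← this]
      refine Finset.sum_congr rfl fun S _ => ?_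
      refine if_congr ?_ rfl rfl
      simp only [Finset.insert_subset_iff, Finset.singleton_subset_iff, Sym2.mem_iff,
        forall_eq_or_imp, forall_eq]
  have h3 : ∑ S : Finset V, ∑ e ∈ F, (if v ∈ S ∧ ∀ x ∈ e, x ∈ S then pr p S else 0) =
      F.card * p ^ 3 := by
    rw [Finset.sum_comm, Finset.sum_congr rfl h2, Finset.sum_const, nsmul_eq_mul]
  have hpt : ∀ S : Finset V, (if v ∈ S then pr p S else 0) -
      pr p S * (if v ∈ S then (((N ∩ S).card : ℝ) - p * N.card) ^ 2 else 0) / t ^ 2 -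
      ∑ e ∈ F, (if v ∈ S ∧ ∀ x ∈ e, x ∈ S then pr p S else 0) ≤
      (if v ∈ S ∧ (N ∩ S).card ≤ D ∧ ∀ e ∈ F, ∃ x ∈ e, x ∉ S then pr p S else 0) := by
    intro S
    have hpr := pr_nonneg (V := V) hp0 hp1 S
    have hs : 0 ≤ ∑ e ∈ F, (if v ∈ S ∧ ∀ x ∈ e, x ∈ S then pr p S else 0) := by
      refine Finset.sum_nonneg fun e _ => ?_
      split_ifs
      · exact hpr
      · exact le_refl 0
    by_cases hvS : v ∈ S
    · rw [if_pos hvS, if_pos hvS]
      have hm : 0 ≤ pr p S * (((N ∩ S).card : ℝ) - p * N.card) ^ 2 / t ^ 2 := by positivity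
      by_cases h4 : (N ∩ S).card ≤ D
      · by_cases h5 : ∀ e ∈ F, ∃ x ∈ e, x ∉ S
        · rw [if_pos ⟨hvS, h4, h5⟩]
          linarith
        · rw [if_neg (fun h => h5 h.2.2)]
          push Not at h5
          obtain ⟨e, he, hx⟩ := h5
          have h6 : pr p S ≤ ∑ e ∈ F, (if v ∈ S ∧ ∀ x ∈ e, x ∈ S then pr p S else 0) := by
            refine le_trans (le_of_eq ?_) (Finset.single_le_sum (f := fun e =>
              (if v ∈ S ∧ ∀ x ∈ e, x ∈ S then pr p S else 0)) (fun e _ => ?_) he)
            · exact (if_pos ⟨hvS, hx⟩).symm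
            · split_ifs
              · exact hpr
              · exact le_refl 0
          linarith
      · rw [if_neg (fun h => h4 h.2.1)]
        have h6 : t ≤ ((N ∩ S).card : ℝ) - p * N.card := by
          have h7 : ((D : ℝ) + 1) ≤ (N ∩ S).card := by exact_mod_cast (by omega)
          linarith
        have h8 : pr p S ≤ pr p S * (((N ∩ S).card : ℝ) - p * N.card) ^ 2 / t ^ 2 := by
          rw [le_div_iff₀ (by positivity)]
          exact mul_le_mul_of_nonneg_left (pow_le_pow_left₀ ht.le h6 2) hpr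
        linarith
    · rw [if_neg hvS, if_neg hvS, if_neg (fun h => hvS h.1), mul_zero, zero_div]
      linarith
  have h4 := Finset.sum_le_sum fun S (_ : S ∈ (univ : Finset (Finset V))) => hpt S
  rw [Finset.sum_sub_distrib, Finset.sum_sub_distrib, h0, ← Finset.sum_div, h1, h3] at h4
  refine le_trans ?_ h4
  have h5 : (N.card : ℝ) * (p ^ 2 - p ^ 3) / t ^ 2 ≤ N.card * p ^ 2 / t ^ 2 := by
    refine div_le_div_of_nonneg_right ?_ (by positivity)
    have : (0 : ℝ) ≤ N.card := Nat.cast_nonneg _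
    have hp3 : 0 ≤ p ^ 3 := by positivity
    nlinarith
  linarith

theorem pr_sum {V : Type} [Fintype V] (p : ℝ) : ∑ S : Finset V, pr p S = 1 := by
  have := sum_sup p (∅ : Finset V)
  simpa using this

/-- Combining fractional colourings of random parts. -/
theorem combine {V : Type} [Fintype V] (G : SimpleGraph V) (T : Finset V → Finset V)
    (P : Finset V → ℝ) (hP : ∀ S, 0 ≤ P S) (hP1 : ∑ S, P S = 1) (B c : ℝ) (hc : 0 < c)
    (w : Finset V → Finset V → ℝ) (hw0 : ∀ S I, 0 ≤ w S I)
    (hwI : ∀ S I, w S I ≠ 0 → ∀ a ∈ I, ∀ b ∈ I, a ∈ T S → b ∈ T S → ¬ G.Adj a b)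
    (hcov : ∀ S, ∀ v ∈ T S, 1 ≤ ∑ I ∈ univ.filter (fun I : Finset V => v ∈ I), w S I)
    (htot : ∀ S, ∑ I, w S I ≤ B) (hc2 : ∀ v, c ≤ ∑ S, if v ∈ T S then P S else 0) :
    ∃ w : Finset V → ℝ, (∀ I, 0 ≤ w I) ∧
      (∀ I, w I ≠ 0 → G.IsIndepSet (I : Set V)) ∧
      (∀ v : V, 1 ≤ ∑ I ∈ Finset.univ.filter (fun I : Finset V => v ∈ I), w I) ∧
      ∑ I, w I ≤ B / c := by
  refine ⟨fun J => c⁻¹ * ∑ S, ∑ I, if I ∩ T S = J then P S * w S I else 0, ?_, ?_, ?_, ?_⟩
  · intro J
    refine mul_nonneg (inv_nonneg.2 hc.le) (Finset.sum_nonneg fun S _ => Finset.sum_nonneg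
      fun I _ => ?_)
    split_ifs
    · exact mul_nonneg (hP S) (hw0 S I)
    · exact le_refl 0
  · intro J hJ a ha b hb _ hadj
    have h1 : ∑ S, ∑ I, (if I ∩ T S = J then P S * w S I else 0) ≠ 0 := by
      intro h
      apply hJ
      dsimp only
      rw [h, mul_zero]
    obtain ⟨S, _, h2⟩ := Finset.exists_ne_zero_of_sum_ne_zero h1
    obtain ⟨I, _, h3⟩ := Finset.exists_ne_zero_of_sum_ne_zero h2
    split_ifs at h3 with h4
    · have h5 : w S I ≠ 0 := fun h => h3 (by rw [h, mul_zero])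
      rw [← h4] at ha hb
      have ha' := Finset.mem_inter.1 (Finset.mem_coe.1 ha)
      have hb' := Finset.mem_inter.1 (Finset.mem_coe.1 hb)
      exact hwI S I h5 a ha'.1 b hb'.1 ha'.2 hb'.2 hadj
    · exact h3 rfl
  · intro v
    rw [← Finset.mul_sum, ← div_eq_inv_mul, one_le_div hc]
    refine (hc2 v).trans ?_
    rw [Finset.sum_comm]
    refine Finset.sum_le_sum fun S _ => ?_
    rw [Finset.sum_comm]
    have e : ∀ I : Finset V, ∑ J ∈ univ.filter (fun J : Finset V => v ∈ J),
        (if I ∩ T S = J then P S * w S I else 0) =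
        if v ∈ I ∧ v ∈ T S then P S * w S I else 0 := by
      intro I
      rw [Finset.sum_ite_eq]
      refine if_congr ?_ rfl rfl
      rw [Finset.mem_filter, Finset.mem_inter]
      simp
    rw [Finset.sum_congr rfl fun I _ => e I]
    split_ifs with hv
    · have h1 := hcov S v hv
      have h2 : ∑ I : Finset V, (if v ∈ I ∧ v ∈ T S then P S * w S I else 0) =
          P S * ∑ I ∈ univ.filter (fun I : Finset V => v ∈ I), w S I := by
        rw [Finset.mul_sum, Finset.sum_filter]
        refine Finset.sum_congr rfl fun I _ => if_congr ?_ rfl rfl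
        exact and_iff_left hv
      rw [h2]
      exact le_mul_of_one_le_right (hP S) h1
    · refine Finset.sum_nonneg fun I _ => ?_
      split_ifs
      · exact mul_nonneg (hP S) (hw0 S I)
      · exact le_refl 0
  · rw [← Finset.mul_sum, ← div_eq_inv_mul]
    refine div_le_div_of_nonneg_right ?_ hc.le
    rw [Finset.sum_comm]
    calc ∑ S, ∑ J, ∑ I, (if I ∩ T S = J then P S * w S I else 0)
        = ∑ S, P S * ∑ I, w S I := by
          refine Finset.sum_congr rfl fun S _ => ?_
          rw [Finset.sum_comm, Finset.mul_sum]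
          refine Finset.sum_congr rfl fun I _ => ?_
          rw [Finset.sum_ite_eq, if_pos (Finset.mem_univ _)]
      _ ≤ ∑ S, P S * B := Finset.sum_le_sum fun S _ =>
          mul_le_mul_of_nonneg_left (htot S) (hP S)
      _ = B := by rw [← Finset.sum_mul, hP1, one_mul]

end Pool.Agent.Helper18.FT
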