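import Pool.Agent.Helper76.FT.GoalsG
import Pool.Agent.Helper76.FT.GoalsB

/-! Packet FT-THREE of MP_39e2b7_an. -/

set_option autoImplicit false

namespace Pool.Agent.Helper18.FT

open Complex Set Filter Topology
open Pool.Agent.Helper76.FT

theorem V_add_int {S : Sys} (hS : S.Ok) {Y : ℝ} (hY : Y ∈ Icc S.a S.b) (q : ℝ) {t : ℝ}
    (ht : t ∈ Icc (0:ℝ) 1) (m : ℤ) : S.V Y (q + m) t = S.V Y q t := by
  have hp : Function.Periodic (fun q => S.V Y q t) 1 := fun q => hS.Vper Y hY q t ht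
  have := hp.int_mul m q
  simpa using this

theorem V_cont2 {S : Sys} (hS : S.Ok) {Y : ℝ} (hY : Y ∈ Icc S.a S.b) :
    ContinuousOn (fun z : ℝ × ℝ => S.V Y z.1 z.2) (univ ×ˢ Icc (0:ℝ) 1) := by
  have h1 : ContinuousOn (fun z : ℝ × ℝ => ((Y, z) : ℝ × ℝ × ℝ)) (univ ×ˢ Icc (0:ℝ) 1) := by
    fun_prop
  exact hS.Vcont.comp h1 (fun z hz => ⟨hY, hz⟩)

theorem w_add_int {S : Sys} {δ ρ : ℝ} {w : ℂ → ℝ → ℂ} {c : ℂ} (hT : Tor S δ w ρ c) (x : ℝ)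
    {t : ℝ} (ht : t ∈ Icc (0:ℝ) 1) (m : ℤ) : w ((x + m : ℝ) : ℂ) t = w (x : ℂ) t := by
  have hp : Function.Periodic (fun x : ℝ => w (x : ℂ) t) 1 := by
    intro y
    have hy : (y : ℂ) ∈ Str ρ := by
      show |((y : ℂ)).im| < ρ
      rw [Complex.ofReal_im, abs_zero]
      exact hT.hρ
    have := hT.sh.per (y : ℂ) hy t ht
    show w ((y + 1 : ℝ) : ℂ) t = w (y : ℂ) t
    rw [← this]
    push_cast
    rfl
  have := hp.int_mul m x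
  simpa using this

theorem sep {S : Sys} (hS : S.Ok) {Y Y' : ℝ} (hY : Y ∈ Icc S.a S.b) (hY' : Y' ∈ Icc S.a S.b)
    (h : Y < Y') : ∃ rad : ℝ, 0 < rad ∧ rad ≤ 1 / 4 ∧ ∀ y y' : ℝ, |y - y'| < 2 * rad →
      ∀ s ∈ Icc (0:ℝ) 1, 2 * rad ≤ |S.V Y' y' s - S.V Y y s| := by
  set Q : Set (ℝ × ℝ) := Icc (-1:ℝ) 2 ×ˢ Icc (0:ℝ) 1 with hQ
  have hQc : IsCompact Q := isCompact_Icc.prod isCompact_Icc
  have hsub : Q ⊆ univ ×ˢ Icc (0:ℝ) 1 := fun z hz => ⟨mem_univ _, hz.2⟩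
  have hc1 := (V_cont2 hS hY).mono hsub
  have hc2 := (V_cont2 hS hY').mono hsub
  obtain ⟨z0, hz0, hmin⟩ := hQc.exists_isMinOn ⟨((0:ℝ), (0:ℝ)), by
    constructor <;> simp⟩ (hc2.sub hc1)
  set gap : ℝ := S.V Y' z0.1 z0.2 - S.V Y z0.1 z0.2 with hgap
  have hgap0 : 0 < gap := sub_pos.2 (hS.Vmono Y hY Y' hY' h z0.1 z0.2 hz0.2)
  have hgapQ : ∀ z ∈ Q, gap ≤ S.V Y' z.1 z.2 - S.V Y z.1 z.2 := fun z hz => hmin hz
  have hu := hQc.uniformContinuousOn_of_continuous hc2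
  rw [Metric.uniformContinuousOn_iff] at hu
  obtain ⟨η, hη, hu⟩ := hu (gap / 2) (by positivity)
  refine ⟨min (1 / 4) (min (η / 4) (gap / 8)), by positivity, min_le_left _ _, ?_⟩
  intro y y' hyy s hs
  set rad := min (1 / 4 : ℝ) (min (η / 4) (gap / 8)) with hrad
  have hr1 : rad ≤ 1 / 4 := min_le_left _ _
  have hr2 : rad ≤ η / 4 := (min_le_right _ _).trans (min_le_left _ _)
  have hr3 : rad ≤ gap / 8 := (min_le_right _ _).trans (min_le_right _ _)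
  have hy0 : 0 ≤ y - ⌊y⌋ := sub_nonneg.2 (Int.floor_le y)
  have hy1 : y - ⌊y⌋ < 1 := by
    have := Int.lt_floor_add_one y
    linarith
  have hab := abs_lt.1 hyy
  have e1 : S.V Y' y' s = S.V Y' (y' - ⌊y⌋) s := by
    have := V_add_int hS hY' (y' - ⌊y⌋) hs ⌊y⌋
    rw [sub_add_cancel] at this
    exact this
  have e2 : S.V Y y s = S.V Y (y - ⌊y⌋) s := by
    have := V_add_int hS hY (y - ⌊y⌋) hs ⌊y⌋
    rw [sub_add_cancel] at this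
    exact this
  have m1 : ((y - ⌊y⌋, s) : ℝ × ℝ) ∈ Q := ⟨⟨by simp only []; linarith, by simp only []; linarith⟩, hs⟩
  have m2 : ((y' - ⌊y⌋, s) : ℝ × ℝ) ∈ Q := ⟨⟨by simp only []; linarith, by simp only []; linarith⟩, hs⟩
  have hd : dist ((y' - ⌊y⌋, s) : ℝ × ℝ) (y - ⌊y⌋, s) < η := by
    rw [Prod.dist_eq, dist_self, max_lt_iff]
    refine ⟨?_, hη⟩
    rw [Real.dist_eq]
    have : y' - ⌊y⌋ - (y - ⌊y⌋) = -(y - y') := by ring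
    rw [this, abs_neg]
    linarith
  have h1 := hu _ m2 _ m1 hd
  rw [Real.dist_eq] at h1
  have h2 := hgapQ _ m1
  simp only [] at h1 h2
  rw [e1, e2]
  have h3 := (abs_lt.1 h1).1
  refine le_trans ?_ (le_abs_self _)
  linarith

theorem gi_iter {S : Sys} (Y x : ℝ) (n : ℕ) : (S.gi Y)^[n] x = S.orb Y x (-(n : ℤ)) := by
  cases n with
  | zero => rfl
  | succ n => rfl

theorem g_iter {S : Sys} (Y x : ℝ) (n : ℕ) : (S.g Y)^[n] x = S.orb Y x (n : ℤ) := rfl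

/-- the crossing argument -/
theorem cross {S : Sys} (hS : S.Ok) (hC : GCross) {Y Y' : ℝ}
    (hY : Y ∈ Icc S.a S.b) (hY' : Y' ∈ Icc S.a S.b) {rad : ℝ}
    (hr1 : rad ≤ 1 / 4)
    (hsep : ∀ y y' : ℝ, |y - y'| < 2 * rad →
      ∀ s ∈ Icc (0:ℝ) 1, 2 * rad ≤ |S.V Y' y' s - S.V Y y s|)
    {δ ρ : ℝ} {w : ℂ → ℝ → ℂ} {c : ℂ} (hT : Tor S δ w ρ c) {x x' : ℝ} {T₀ T₁ m : ℤ}
    (hTT : T₀ < T₁) (h0 : S.orb Y' x' T₀ + m < S.orb Y x T₀ - 1)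
    (h1 : S.orb Y x T₁ + 1 < S.orb Y' x' T₁ + m)
    (s1 : Strand S w Y x rad T₀ T₁) (s2 : Strand S w Y' x' rad T₀ T₁) : False := by
  obtain ⟨γ, hγc, hγ0, hγ1, hγ⟩ := s1
  obtain ⟨β, hβc, hβ0, hβ1, hβ⟩ := s2
  have atInt : ∀ (Z z : ℝ) (p : ℝ × ℝ) (n : ℤ), Near S w Z z rad p → p.2 = n →
      |p.1 - S.orb Z z n| < rad := by
    intro Z z p n hp hn
    have := hp.1
    rw [hn, Int.floor_intCast, Int.fract_intCast, zero_mul, add_zero] at this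
    exact this
  have hcr := hC (fun s => ((((β s).1 + m : ℝ) : ℂ) + ((β s).2 : ℂ) * Complex.I))
    (fun s => (((γ s).1 : ℂ) + ((γ s).2 : ℂ) * Complex.I)) (T₀ : ℝ) (T₁ : ℝ)
    (by exact_mod_cast hTT) (by fun_prop) (by fun_prop)
    (fun s hs => by simpa using ⟨(hβ s hs).1, (hβ s hs).2.1⟩)
    (fun s hs => by simpa using ⟨(hγ s hs).1, (hγ s hs).2.1⟩)
    (by simpa using hβ0) (by simpa using hβ1) (by simpa using hγ0) (by simpa using hγ1)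
    (by
      intro s hs s' hs' hi hi'
      have hi1 : (β s).2 = (T₀ : ℝ) := by simpa using hi
      have hi2 : (γ s').2 = (T₀ : ℝ) := by simpa using hi'
      have a1 := abs_lt.1 (atInt Y' x' _ T₀ (hβ s hs).2.2 hi1)
      have a2 := abs_lt.1 (atInt Y x _ T₀ (hγ s' hs').2.2 hi2)
      have : (β s).1 + m < (γ s').1 := by linarith [a1.2, a2.1]
      simpa using this)
    (by
      intro s hs s' hs' hi hi'
      have hi1 : (β s).2 = (T₁ : ℝ) := by simpa using hi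
      have hi2 : (γ s').2 = (T₁ : ℝ) := by simpa using hi'
      have a1 := abs_lt.1 (atInt Y' x' _ T₁ (hβ s hs).2.2 hi1)
      have a2 := abs_lt.1 (atInt Y x _ T₁ (hγ s' hs').2.2 hi2)
      have : (γ s').1 < (β s).1 + m := by linarith [a1.1, a2.2]
      simpa using this)
  obtain ⟨s, hs, s', hs', heq⟩ := hcr
  have hre : (β s).1 + m = (γ s').1 := by
    have := congrArg Complex.re heq
    simpa using this
  have him : (β s).2 = (γ s').2 := by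
    have := congrArg Complex.im heq
    simpa using this
  have n1 := (hβ s hs).2.2
  have n2 := (hγ s' hs').2.2
  unfold Near at n1 n2
  rw [← him, ← hre] at n2
  set n : ℤ := ⌊(β s).2⌋ with hn
  set f : ℝ := Int.fract (β s).2 with hf
  have hf01 : f ∈ Icc (0:ℝ) 1 := ⟨Int.fract_nonneg _, (Int.fract_lt_one _).le⟩
  have hwt : wt w (γ s') = wt w (β s) := by
    unfold wt
    rw [← him, ← hre]
    exact w_add_int hT (β s).1 hf01 m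
  rw [hwt] at n2
  have v1 : S.V Y' (S.orb Y' x' n + f * S.vel Y' x' n + m) f = S.vel Y' x' n := by
    rw [V_add_int hS hY' _ hf01 m]
    have := hS.Vline Y' hY' (S.orb Y' x' n) f hf01 0 ⟨le_rfl, zero_le_one⟩
    rw [sub_zero] at this
    exact this
  have v2 : S.V Y (S.orb Y x n + f * S.vel Y x n) f = S.vel Y x n := by
    have := hS.Vline Y hY (S.orb Y x n) f hf01 0 ⟨le_rfl, zero_le_one⟩
    rw [sub_zero] at this
    exact this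
  have key := hsep (S.orb Y x n + f * S.vel Y x n) (S.orb Y' x' n + f * S.vel Y' x' n + m)
    (by
      have a1 := abs_lt.1 n1.1
      have a2 := abs_lt.1 n2.1
      rw [abs_lt]
      constructor <;> linarith [a1.1, a1.2, a2.1, a2.2]) f hf01
  rw [v1, v2] at key
  have b : |S.vel Y' x' n - S.vel Y x n| < 2 * rad := by
    have e : ((S.vel Y' x' n - S.vel Y x n : ℝ) : ℂ) =
        (wt w (β s) - (S.vel Y x n : ℝ)) - (wt w (β s) - (S.vel Y' x' n : ℝ)) := by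
      push_cast; ring
    calc |S.vel Y' x' n - S.vel Y x n| = ‖((S.vel Y' x' n - S.vel Y x n : ℝ) : ℂ)‖ := by
          rw [Complex.norm_real, Real.norm_eq_abs]
      _ ≤ ‖wt w (β s) - (S.vel Y x n : ℝ)‖ + ‖wt w (β s) - (S.vel Y' x' n : ℝ)‖ := by
          rw [e]; exact norm_sub_le _ _
      _ < 2 * rad := by linarith [n1.2, n2.2]
  linarith

/-- forward divergence -/
theorem fwd {S : Sys} (hS : S.Ok) (hR : GReg) {Y Y' : ℝ}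
    (hY : Y ∈ Icc S.a S.b) (hY' : Y' ∈ Icc S.a S.b) (h : Y < Y') (x x' : ℝ) :
    ∃ (m : ℤ) (N : ℕ), S.orb Y' x' 1 + m < S.orb Y x 1 - 1 ∧ ∀ T : ℕ, N ≤ T →
      S.orb Y x T + 1 < S.orb Y' x' T + m := by
  obtain ⟨-, -, -, -, -, -, -, -, -, hl, hll, horb, -⟩ := hR S hS
  obtain ⟨m, hm⟩ := exists_int_lt (S.orb Y x 1 - 1 - S.orb Y' x' 1)
  obtain ⟨N, hN⟩ := (hS.div Y hY Y' hY' h x x' (1 - m)).1
  refine ⟨m, N, by linarith, fun T hT => ?_⟩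
  induction T, hT using Nat.le_induction with
  | base =>
    rw [g_iter, g_iter] at hN
    linarith
  | succ T _ ih =>
    have e1 : S.orb Y x ((T + 1 : ℕ) : ℤ) = S.g Y (S.orb Y x T) := by
      have := (horb Y hY x T).1
      rw [Nat.cast_succ]; exact this
    have e2 : S.orb Y' x' ((T + 1 : ℕ) : ℤ) = S.g Y' (S.orb Y' x' T) := by
      have := (horb Y' hY' x' T).1
      rw [Nat.cast_succ]; exact this
    rw [e1, e2]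
    have hint : ∀ (y : ℝ) (k : ℤ), S.g Y' (y + k) = S.g Y' y + k := by
      intro y k
      unfold Sys.g
      rw [V_add_int hS hY' y ⟨le_rfl, zero_le_one⟩ k]
      ring
    have a1 : S.g Y' (S.orb Y x T + 1) < S.g Y' (S.orb Y' x' T + m) := (hl Y' hY').1 ih
    have a2 := hint (S.orb Y' x' T) m
    have a3 := ((hl Y' hY').2.2.2.2 (S.orb Y x T)).2.2.1
    have a4 := (hll Y hY Y' hY' h (S.orb Y x T)).1
    linarith

/-- backward divergence -/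
theorem bwd {S : Sys} (hS : S.Ok) (hR : GReg) {Y Y' : ℝ}
    (hY : Y ∈ Icc S.a S.b) (hY' : Y' ∈ Icc S.a S.b) (h : Y < Y') (x x' : ℝ) :
    ∃ (m : ℤ) (N : ℕ), S.orb Y x 0 + 1 < S.orb Y' x' 0 + m ∧ ∀ T : ℕ, N ≤ T →
      S.orb Y' x' (-(T : ℤ)) + m < S.orb Y x (-(T : ℤ)) - 1 := by
  obtain ⟨-, -, -, -, -, -, -, -, -, hl, hll, horb, -⟩ := hR S hS
  obtain ⟨m, hm⟩ := exists_int_gt (S.orb Y x 0 + 1 - S.orb Y' x' 0)
  obtain ⟨N, hN⟩ := (hS.div Y hY Y' hY' h x x' (m + 1)).2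
  refine ⟨m, N, by linarith, fun T hT => ?_⟩
  induction T, hT using Nat.le_induction with
  | base =>
    rw [gi_iter, gi_iter] at hN
    linarith
  | succ T _ ih =>
    have e1 : S.orb Y x (-((T + 1 : ℕ) : ℤ)) = S.gi Y (S.orb Y x (-(T : ℤ))) := by
      have := (horb Y hY x (-((T + 1 : ℕ) : ℤ))).2.1
      rw [show (-((T + 1 : ℕ) : ℤ)) + 1 = -(T : ℤ) by push_cast; ring] at this
      exact this
    have e2 : S.orb Y' x' (-((T + 1 : ℕ) : ℤ)) = S.gi Y' (S.orb Y' x' (-(T : ℤ))) := by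
      have := (horb Y' hY' x' (-((T + 1 : ℕ) : ℤ))).2.1
      rw [show (-((T + 1 : ℕ) : ℤ)) + 1 = -(T : ℤ) by push_cast; ring] at this
      exact this
    rw [e1, e2]
    have hint : ∀ (y : ℝ) (k : ℤ), S.gi Y' (y + k) = S.gi Y' y + k := by
      intro y k
      unfold Sys.gi
      rw [V_add_int hS hY' y ⟨zero_le_one, le_rfl⟩ k]
      ring
    have ih' : S.orb Y' x' (-(T : ℤ)) + ((m + 1 : ℤ) : ℝ) < S.orb Y x (-(T : ℤ)) := by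
      push_cast; linarith
    have a1 := (hl Y' hY').2.2.1 ih'
    have a2 := hint (S.orb Y' x' (-(T : ℤ))) (m + 1)
    have a4 := (hll Y hY Y' hY' h (S.orb Y x (-(T : ℤ)))).2
    push_cast at a2
    push_cast at a1
    linarith

/-- the torus is `ε`-close to the leaf at `(q, t)` -/
def Cl (S : Sys) (w : ℂ → ℝ → ℂ) (Y x ε q t : ℝ) : Prop :=
  |q - (x + t * S.V Y x 0)| < ε ∧ ‖w (q : ℂ) t - (S.V Y x 0 : ℝ)‖ < ε

theorem core {S : Sys} (hS : S.Ok) (hR : GReg) (hSt : GStrand) (hC : GCross)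
    {Y₁ Y₂ Y₃ : ℝ} (h₁ : Y₁ ∈ Icc S.a S.b) (h₂ : Y₂ ∈ Icc S.a S.b) (h₃ : Y₃ ∈ Icc S.a S.b)
    (h12 : Y₁ < Y₂) (h23 : Y₂ < Y₃) (x₁ x₂ x₃ : ℝ) : ∃ ε : ℝ, 0 < ε ∧
    ∀ (δ ρ : ℝ) (w : ℂ → ℝ → ℂ) (c : ℂ), δ < S.r → Tor S δ w ρ c →
    ∀ q₁ q₂ q₃ : ℝ, ∀ t₁ ∈ Icc (0:ℝ) 1, ∀ t₂ ∈ Icc (0:ℝ) 1, ∀ t₃ ∈ Icc (0:ℝ) 1,
      ¬ (Cl S w Y₁ x₁ ε q₁ t₁ ∧ Cl S w Y₂ x₂ ε q₂ t₂ ∧ Cl S w Y₃ x₃ ε q₃ t₃) := by
  have h13 : Y₁ < Y₃ := h12.trans h23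
  obtain ⟨ra, ra0, ra4, hra⟩ := sep hS h₁ h₂ h12
  obtain ⟨rb, rb0, rb4, hrb⟩ := sep hS h₂ h₃ h23
  obtain ⟨rc, rc0, rc4, hrc⟩ := sep hS h₁ h₃ h13
  set rad := min ra (min rb rc) with hrad
  have hrad0 : 0 < rad := lt_min ra0 (lt_min rb0 rc0)
  have hrada : rad ≤ ra := min_le_left _ _
  have hradb : rad ≤ rb := (min_le_right _ _).trans (min_le_left _ _)
  have hradc : rad ≤ rc := (min_le_right _ _).trans (min_le_right _ _)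
  have hrad4 : rad ≤ 1 / 4 := hrada.trans ra4
  obtain ⟨ma, Na, fa, fa'⟩ := fwd hS hR h₁ h₂ h12 x₁ x₂
  obtain ⟨mb, Nb, fb, fb'⟩ := fwd hS hR h₂ h₃ h23 x₂ x₃
  obtain ⟨mc, Nc, fc, fc'⟩ := fwd hS hR h₁ h₃ h13 x₁ x₃
  obtain ⟨ka, Ma, ga, ga'⟩ := bwd hS hR h₁ h₂ h12 x₁ x₂
  obtain ⟨kb, Mb, gb, gb'⟩ := bwd hS hR h₂ h₃ h23 x₂ x₃
  obtain ⟨kc, Mc, gc, gc'⟩ := bwd hS hR h₁ h₃ h13 x₁ x₃
  set T : ℕ := 2 + (Na + Nb + Nc + Ma + Mb + Mc) with hT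
  have hT2 : (2 : ℤ) ≤ (T : ℤ) := by rw [hT]; push_cast; omega
  obtain ⟨e1, e10, he1⟩ := hSt S hS Y₁ h₁ x₁ T rad hT2 hrad0
  obtain ⟨e2, e20, he2⟩ := hSt S hS Y₂ h₂ x₂ T rad hT2 hrad0
  obtain ⟨e3, e30, he3⟩ := hSt S hS Y₃ h₃ x₃ T rad hT2 hrad0
  refine ⟨min e1 (min e2 e3), lt_min e10 (lt_min e20 e30), ?_⟩
  intro δ ρ w c hδ hTor q₁ q₂ q₃ t₁ ht₁ t₂ ht₂ t₃ ht₃ hcl
  obtain ⟨c1, c2, c3⟩ := hcl
  have l1 : min e1 (min e2 e3) ≤ e1 := min_le_left _ _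
  have l2 : min e1 (min e2 e3) ≤ e2 := (min_le_right _ _).trans (min_le_left _ _)
  have l3 : min e1 (min e2 e3) ≤ e3 := (min_le_right _ _).trans (min_le_right _ _)
  have st1 := he1 δ ρ w c hδ hTor q₁ t₁ ht₁ (c1.1.trans_le l1) (c1.2.trans_le l1)
  have st2 := he2 δ ρ w c hδ hTor q₂ t₂ ht₂ (c2.1.trans_le l2) (c2.2.trans_le l2)
  have st3 := he3 δ ρ w c hδ hTor q₃ t₃ ht₃ (c3.1.trans_le l3) (c3.2.trans_le l3)
  have hTf : (1 : ℤ) < (T : ℤ) := by omega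
  have hTb : (-(T : ℤ)) < (0 : ℤ) := by omega
  -- the three forward pairs and the three backward pairs
  have F : ∀ {Y Y' x x' : ℝ} {m : ℤ} {r : ℝ}, Y ∈ Icc S.a S.b → Y' ∈ Icc S.a S.b → rad ≤ r →
      (∀ y y' : ℝ, |y - y'| < 2 * r → ∀ s ∈ Icc (0:ℝ) 1, 2 * r ≤ |S.V Y' y' s - S.V Y y s|) →
      S.orb Y' x' 1 + m < S.orb Y x 1 - 1 → S.orb Y x T + 1 < S.orb Y' x' T + m →
      Strand S w Y x rad 1 (T : ℤ) → Strand S w Y' x' rad 1 (T : ℤ) → False := by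
    intro Y Y' x x' m r hY hY' hr hs h0 h1 s1 s2
    refine cross (T₀ := 1) (T₁ := (T : ℤ)) (m := m) hS hC hY hY' hrad4
      (fun y y' hy s hs' => le_trans (by linarith) (hs y y' (by linarith) s hs'))
      hTor hTf h0 h1 ?_ ?_
    · simpa using s1
    · simpa using s2
  have B : ∀ {Y Y' x x' : ℝ} {m : ℤ} {r : ℝ}, Y ∈ Icc S.a S.b → Y' ∈ Icc S.a S.b → rad ≤ r →
      (∀ y y' : ℝ, |y - y'| < 2 * r → ∀ s ∈ Icc (0:ℝ) 1, 2 * r ≤ |S.V Y' y' s - S.V Y y s|) →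
      S.orb Y' x' (-(T : ℤ)) + m < S.orb Y x (-(T : ℤ)) - 1 → S.orb Y x 0 + 1 < S.orb Y' x' 0 + m →
      Strand S w Y x rad (-(T : ℤ)) 0 → Strand S w Y' x' rad (-(T : ℤ)) 0 → False := by
    intro Y Y' x x' m r hY hY' hr hs h0 h1 s1 s2
    refine cross (T₀ := -(T : ℤ)) (T₁ := 0) (m := m) hS hC hY hY' hrad4
      (fun y y' hy s hs' => le_trans (by linarith) (hs y y' (by linarith) s hs'))
      hTor hTb h0 h1 ?_ ?_
    · simpa using s1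
    · simpa using s2
  have Fa := F (x := x₁) (x' := x₂) h₁ h₂ hrada hra fa (fa' T (by omega))
  have Fb := F (x := x₂) (x' := x₃) h₂ h₃ hradb hrb fb (fb' T (by omega))
  have Fc := F (x := x₁) (x' := x₃) h₁ h₃ hradc hrc fc (fc' T (by omega))
  have Ba := B (x := x₁) (x' := x₂) h₁ h₂ hrada hra (ga' T (by omega)) ga
  have Bb := B (x := x₂) (x' := x₃) h₂ h₃ hradb hrb (gb' T (by omega)) gb
  have Bc := B (x := x₁) (x' := x₃) h₁ h₃ hradc hrc (gc' T (by omega)) gc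
  rcases st1 with s1 | s1 <;> rcases st2 with s2 | s2 <;> rcases st3 with s3 | s3
  · exact Fa s1 s2
  · exact Fa s1 s2
  · exact Fc s1 s3
  · exact Bb s2 s3
  · exact Fb s2 s3
  · exact Bc s1 s3
  · exact Ba s1 s2
  · exact Ba s1 s2

/-- base point -/
noncomputable def bp (S : Sys) (Y x t : ℝ) : ℝ := x - t * S.V Y x t

theorem V_bp {S : Sys} (hS : S.Ok) {Y : ℝ} (hY : Y ∈ Icc S.a S.b) (x : ℝ) {t : ℝ}
    (ht : t ∈ Icc (0:ℝ) 1) : S.V Y (bp S Y x t) 0 = S.V Y x t := by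
  have := hS.Vline Y hY x 0 ⟨le_rfl, zero_le_one⟩ t ht
  rw [show x + (0 - t) * S.V Y x t = bp S Y x t by unfold bp; ring] at this
  exact this

theorem ft_three : GReg → GStrand → GCross → GThree := by
  intro hR hSt hC S hS Y₁ h₁ Y₂ h₂ Y₃ h₃ h12 h23
  set K : Set (ℝ × ℝ × ℝ) := Icc (0:ℝ) 1 ×ˢ (Icc (0:ℝ) 1 ×ˢ Icc (0:ℝ) 1) with hK
  have hKc : IsCompact K := isCompact_Icc.prod (isCompact_Icc.prod isCompact_Icc)
  have main : ∃ ε : ℝ, 0 < ε ∧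
    ∀ (δ ρ : ℝ) (w : ℂ → ℝ → ℂ) (c : ℂ), δ < S.r → Tor S δ w ρ c →
    ∀ x₁ x₂ x₃ : ℝ, ∀ t₁ ∈ Icc (0:ℝ) 1, ∀ t₂ ∈ Icc (0:ℝ) 1, ∀ t₃ ∈ Icc (0:ℝ) 1,
      (bp S Y₁ x₁ t₁, bp S Y₂ x₂ t₂, bp S Y₃ x₃ t₃) ∈ K →
      ¬ (‖w (x₁ : ℂ) t₁ - (S.V Y₁ x₁ t₁ : ℝ)‖ < ε ∧ ‖w (x₂ : ℂ) t₂ - (S.V Y₂ x₂ t₂ : ℝ)‖ < ε ∧
        ‖w (x₃ : ℂ) t₃ - (S.V Y₃ x₃ t₃ : ℝ)‖ < ε) := by
    refine hKc.induction_on (p := fun s => ∃ ε : ℝ, 0 < ε ∧
      ∀ (δ ρ : ℝ) (w : ℂ → ℝ → ℂ) (c : ℂ), δ < S.r → Tor S δ w ρ c →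
      ∀ x₁ x₂ x₃ : ℝ, ∀ t₁ ∈ Icc (0:ℝ) 1, ∀ t₂ ∈ Icc (0:ℝ) 1, ∀ t₃ ∈ Icc (0:ℝ) 1,
        (bp S Y₁ x₁ t₁, bp S Y₂ x₂ t₂, bp S Y₃ x₃ t₃) ∈ s →
        ¬ (‖w (x₁ : ℂ) t₁ - (S.V Y₁ x₁ t₁ : ℝ)‖ < ε ∧ ‖w (x₂ : ℂ) t₂ - (S.V Y₂ x₂ t₂ : ℝ)‖ < ε ∧
          ‖w (x₃ : ℂ) t₃ - (S.V Y₃ x₃ t₃ : ℝ)‖ < ε)) ?_ ?_ ?_ ?_
    · exact ⟨1, one_pos, fun _ _ _ _ _ _ _ _ _ _ _ _ _ _ _ h => absurd h (notMem_empty _)⟩
    · rintro s t hst ⟨ε, hε, h⟩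
      exact ⟨ε, hε, fun δ ρ w c hδ hT x₁ x₂ x₃ t₁ a₁ t₂ a₂ t₃ a₃ hm =>
        h δ ρ w c hδ hT x₁ x₂ x₃ t₁ a₁ t₂ a₂ t₃ a₃ (hst hm)⟩
    · rintro s t ⟨ε, hε, h⟩ ⟨ε', hε', h'⟩
      refine ⟨min ε ε', lt_min hε hε', ?_⟩
      intro δ ρ w c hδ hT x₁ x₂ x₃ t₁ a₁ t₂ a₂ t₃ a₃ hm hcl
      have l1 := min_le_left ε ε'
      have l2 := min_le_right ε ε'
      rcases hm with hm | hm
      · exact h δ ρ w c hδ hT x₁ x₂ x₃ t₁ a₁ t₂ a₂ t₃ a₃ hm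
          ⟨hcl.1.trans_le l1, hcl.2.1.trans_le l1, hcl.2.2.trans_le l1⟩
      · exact h' δ ρ w c hδ hT x₁ x₂ x₃ t₁ a₁ t₂ a₂ t₃ a₃ hm
          ⟨hcl.1.trans_le l2, hcl.2.1.trans_le l2, hcl.2.2.trans_le l2⟩
    · rintro ⟨b₁, b₂, b₃⟩ -
      obtain ⟨ε, hε, h⟩ := core hS hR hSt hC h₁ h₂ h₃ h12 h23 b₁ b₂ b₃
      have hcont : ∀ {Y : ℝ}, Y ∈ Icc S.a S.b → Continuous (fun b => S.V Y b 0) := by
        intro Y hY
        rw [← continuousOn_univ]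
        have h1 : ContinuousOn (fun b : ℝ => ((b, (0:ℝ)) : ℝ × ℝ)) univ := by fun_prop
        exact (V_cont2 hS hY).comp h1 (fun b _ => ⟨mem_univ _, ⟨le_rfl, zero_le_one⟩⟩)
      have hnb : ∀ {Y : ℝ}, Y ∈ Icc S.a S.b → ∀ b : ℝ,
          {b' : ℝ | |b' - b| < ε / 4 ∧ |S.V Y b' 0 - S.V Y b 0| < ε / 4} ∈ 𝓝 b := by
        intro Y hY b
        have h1 : Continuous (fun b' : ℝ => |b' - b|) := by fun_prop
        have h2 : Continuous (fun b' : ℝ => |S.V Y b' 0 - S.V Y b 0|) :=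
          ((hcont hY).sub continuous_const).abs
        have o1 : IsOpen {b' : ℝ | |b' - b| < ε / 4} := isOpen_lt h1 continuous_const
        have o2 : IsOpen {b' : ℝ | |S.V Y b' 0 - S.V Y b 0| < ε / 4} := isOpen_lt h2 continuous_const
        refine (o1.inter o2).mem_nhds ⟨?_, ?_⟩
        · show |b - b| < ε / 4
          rw [sub_self, abs_zero]; positivity
        · show |S.V Y b 0 - S.V Y b 0| < ε / 4
          rw [sub_self, abs_zero]; positivity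
      refine ⟨{b' : ℝ | |b' - b₁| < ε / 4 ∧ |S.V Y₁ b' 0 - S.V Y₁ b₁ 0| < ε / 4} ×ˢ
        ({b' : ℝ | |b' - b₂| < ε / 4 ∧ |S.V Y₂ b' 0 - S.V Y₂ b₂ 0| < ε / 4} ×ˢ
          {b' : ℝ | |b' - b₃| < ε / 4 ∧ |S.V Y₃ b' 0 - S.V Y₃ b₃ 0| < ε / 4}),
        mem_nhdsWithin_of_mem_nhds (prod_mem_nhds (hnb h₁ b₁)
          (prod_mem_nhds (hnb h₂ b₂) (hnb h₃ b₃))), ε / 4, by positivity, ?_⟩
      intro δ ρ w c hδ hT x₁ x₂ x₃ t₁ a₁ t₂ a₂ t₃ a₃ hm hcl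
      have hone : ∀ {Y x t b : ℝ}, Y ∈ Icc S.a S.b → t ∈ Icc (0:ℝ) 1 →
          (|bp S Y x t - b| < ε / 4 ∧ |S.V Y (bp S Y x t) 0 - S.V Y b 0| < ε / 4) →
          ‖w (x : ℂ) t - (S.V Y x t : ℝ)‖ < ε / 4 → Cl S w Y b ε x t := by
        intro Y x t b hY ht hb hw
        rw [V_bp hS hY x ht] at hb
        constructor
        · have e : x - (b + t * S.V Y b 0) =
              (bp S Y x t - b) + t * (S.V Y x t - S.V Y b 0) := by unfold bp; ring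
          rw [e]
          calc |(bp S Y x t - b) + t * (S.V Y x t - S.V Y b 0)|
              ≤ |bp S Y x t - b| + |t * (S.V Y x t - S.V Y b 0)| := abs_add_le _ _
            _ ≤ |bp S Y x t - b| + 1 * |S.V Y x t - S.V Y b 0| := by
                rw [abs_mul, abs_of_nonneg ht.1]
                gcongr
                exact ht.2
            _ < ε := by linarith [hb.1, hb.2]
        · have e : w (x : ℂ) t - (S.V Y b 0 : ℝ) =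
              (w (x : ℂ) t - (S.V Y x t : ℝ)) + ((S.V Y x t - S.V Y b 0 : ℝ) : ℂ) := by
            push_cast; ring
          rw [e]
          calc _ ≤ ‖w (x : ℂ) t - (S.V Y x t : ℝ)‖ + ‖((S.V Y x t - S.V Y b 0 : ℝ) : ℂ)‖ :=
                norm_add_le _ _
            _ < ε := by
                rw [Complex.norm_real, Real.norm_eq_abs]
                linarith [hb.2]
      exact h δ ρ w c hδ hT x₁ x₂ x₃ t₁ a₁ t₂ a₂ t₃ a₃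
        ⟨hone h₁ a₁ hm.1 hcl.1, hone h₂ a₂ hm.2.1 hcl.2.1, hone h₃ a₃ hm.2.2 hcl.2.2⟩
  obtain ⟨ε, hε, h⟩ := main
  refine ⟨ε, hε, ?_⟩
  intro δ ρ w c hδ hT x₁ x₂ x₃ t₁ a₁ t₂ a₂ t₃ a₃ hcl
  have sh : ∀ {Y x t : ℝ}, Y ∈ Icc S.a S.b → t ∈ Icc (0:ℝ) 1 →
      ‖w (x : ℂ) t - (S.V Y x t : ℝ)‖ < ε → ∃ x' : ℝ, bp S Y x' t ∈ Icc (0:ℝ) 1 ∧
        ‖w (x' : ℂ) t - (S.V Y x' t : ℝ)‖ < ε := by
    intro Y x t hY ht hw
    refine ⟨x + ((-⌊bp S Y x t⌋ : ℤ) : ℝ), ?_, ?_⟩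
    · have e : bp S Y (x + ((-⌊bp S Y x t⌋ : ℤ) : ℝ)) t = Int.fract (bp S Y x t) := by
        have e1 : bp S Y (x + ((-⌊bp S Y x t⌋ : ℤ) : ℝ)) t =
            bp S Y x t + ((-⌊bp S Y x t⌋ : ℤ) : ℝ) := by
          unfold bp
          rw [V_add_int hS hY x ht]
          ring
        rw [e1, Int.fract]
        push_cast
        ring
      rw [e]
      exact ⟨Int.fract_nonneg _, (Int.fract_lt_one _).le⟩
    · rw [w_add_int hT x ht, V_add_int hS hY x ht]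
      exact hw
  obtain ⟨y₁, m₁, g₁⟩ := sh h₁ a₁ hcl.1
  obtain ⟨y₂, m₂, g₂⟩ := sh h₂ a₂ hcl.2.1
  obtain ⟨y₃, m₃, g₃⟩ := sh h₃ a₃ hcl.2.2
  exact h δ ρ w c hδ hT y₁ y₂ y₃ t₁ a₁ t₂ a₂ t₃ a₃ ⟨m₁, m₂, m₃⟩ ⟨g₁, g₂, g₃⟩

end Pool.Agent.Helper18.FT
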